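import Pool.Agent.NH60.SS.Final
import Pool.Agent.NH60.SS.Comb

/-!
# Semistability of the simple elliptic surface singularities

For the three families of simple elliptic singularities the ring `R_f [[T]]` has Lech-Mumford
constant equal to one.
-/

set_option autoImplicit false

namespace Pool.Agent.Results.MP_b8f3cd_ag.Semistability

open MvPolynomial
open Pool.Agent.X272.LMBase (LM)

/-- the ring `ℂ[[x, y, z]] / (f)` -/
abbrev R (f : MvPolynomial (Fin 3) ℂ) : Type :=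
  MvPowerSeries (Fin 3) ℂ ⧸ Ideal.span {(f : MvPowerSeries (Fin 3) ℂ)}

/-- A ring `B` is semistable if `B[[T]]` is a local ring with Lech-Mumford constant one. -/
def Semistable (B : Type) [CommRing B] : Prop :=
  ∃ _ : IsLocalRing (PowerSeries B), LM (PowerSeries B) = 1

/-- **The simple elliptic surface singularities are semistable.** -/
theorem result :
    (∀ lam : ℂ, lam ^ 4 ≠ 64 →
      Semistable (R (X 0 ^ 2 + X 1 ^ 4 + X 2 ^ 4 + C lam * (X 0 * X 1 * X 2)))) ∧
    (∀ lam : ℂ, lam ^ 6 ≠ 432 →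
      Semistable (R (X 0 ^ 2 + X 1 ^ 3 + X 2 ^ 6 + C lam * (X 0 * X 1 * X 2)))) ∧
    (∀ lam : ℂ, lam ^ 3 ≠ -27 →
      Semistable (R (X 0 ^ 3 + X 1 ^ 3 + X 2 ^ 3 + C lam * (X 0 * X 1 * X 2)))) :=
  ⟨fun lam h => Pool.Agent.NH60.SS.Z.semi_X Pool.Agent.NH60.SS.t_Comb lam h,
    fun lam h => Pool.Agent.NH60.SS.Z.semi_J Pool.Agent.NH60.SS.t_Comb lam h,
    fun lam h => Pool.Agent.NH60.SS.Z.semi_T Pool.Agent.NH60.SS.t_Comb lam h⟩

end Pool.Agent.Results.MP_b8f3cd_ag.Semistability
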